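import Pool.Agent.KS6_91.TS.Main

/-!
# Transitive sets lie in orbits of `p`-groups, but not in orbits of almost abelian groups

Every finite transitive set has, for every prime `p`, an isometric copy in an orbit of a `p`-group
of coordinate permutations; in particular it is subsoluble. Solubility cannot be improved to
commutativity, not even up to bounded index: the roots `±e_i ± e_j` of `ℝ^d` form a transitive set
of which no isometric copy, in any dimension, lies in a finite set on which a group of symmetries
with an abelian subgroup of index less than `d / 2` acts transitively.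
-/

set_option autoImplicit false

namespace Pool.Agent.Results.MP_528470_co.SolubleNotBoundedlyAbelian

open Pool.Agent.KS6_91.TS

/-- `Y` is finite, and a group `H` of isometries, each mapping `Y` onto itself, acts transitively
on `Y` and has an abelian subgroup of finite index at most `m`. (For `m = 1`: an abelian group of
symmetries acts transitively on `Y`.) -/
def IsBoundedlyAbelianSet {n : ℕ} (m : ℕ) (Y : Set (EuclideanSpace ℝ (Fin n))) : Prop :=
  Y.Finite ∧ ∃ H A : Subgroup (EuclideanSpace ℝ (Fin n) ≃ᵢ EuclideanSpace ℝ (Fin n)),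
    A ≤ H ∧ (∀ a ∈ A, ∀ b ∈ A, a * b = b * a) ∧ A.relIndex H ≠ 0 ∧ A.relIndex H ≤ m ∧
    (∀ h ∈ H, ⇑h '' Y = Y) ∧ ∀ y ∈ Y, ∀ z ∈ Y, ∃ h ∈ H, h y = z

/-- **(1)** For every prime `p`, every finite transitive set in `ℝ^d` has an isometric copy in the
orbit of a vector of `ℝ^n`, `n ≥ d`, under a group of permutations of the coordinates of order a
power of `p`, and such an orbit is a soluble set; so every transitive set is subsoluble.
**(2)** For all `m ≥ 1` and `d > 2 m`, the roots `±e_i ± e_j` (`i ≠ j`) of type `D_d` form a finite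
transitive set in `ℝ^d` (of size `2 d (d - 1)`), and no isometric copy of it, in any dimension,
lies in a finite set on which a group of symmetries with an abelian subgroup of index at most `m`
acts transitively. In particular (`m = 1`) the twelve vertices `±e_i ± e_j` of the cuboctahedron in
`ℝ^3` do not lie in an orbit of an abelian group. -/
theorem result :
    (∀ p : ℕ, p.Prime → ∀ (d : ℕ) (X : Set (EuclideanSpace ℝ (Fin d))),
      X.Finite → IsTransitiveSet X →
      ∃ n : ℕ, d ≤ n ∧ ∃ (H : Subgroup (Equiv.Perm (Fin n))) (y : EuclideanSpace ℝ (Fin n)),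
        (∃ k : ℕ, Nat.card H = p ^ k) ∧ IsSolubleSet (orb H y) ∧
        ∃ f : EuclideanSpace ℝ (Fin d) → EuclideanSpace ℝ (Fin n),
          Isometry f ∧ f '' X ⊆ orb H y) ∧
    (∀ m d : ℕ, 1 ≤ m → 2 * m < d →
      (roots d).Finite ∧ IsTransitiveSet (roots d) ∧
      ∀ (n : ℕ) (Y : Set (EuclideanSpace ℝ (Fin n))), IsBoundedlyAbelianSet m Y →
        ∀ f : EuclideanSpace ℝ (Fin d) → EuclideanSpace ℝ (Fin n),
          Isometry f → ¬ f '' roots d ⊆ Y) := by
  refine ⟨pGroupOrbit, fun m d hm hd => ⟨roots_finite d, roots_transitive d, ?_⟩⟩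
  rintro n Y ⟨hY, H, A, -, hA, hi0, hi, hHY, htr⟩ f hf hfY
  exact not_bounded m d hm hd n Y hY H A hA hi0 hi hHY htr f hf hfY

end Pool.Agent.Results.MP_528470_co.SolubleNotBoundedlyAbelian
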